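import Mathlib
import Pool.Agent.K1H43.NI.Fin

/-!
MP_17d087_al.  In every characteristic there is a non-invertible ring without zero divisors whose
multiplicative semigroup of nonzero elements embeds in a group.
-/

universe v

namespace Pool.Agent.Results.MP_17d087_al.EveryCharacteristic

/-- The semigroup of the nonzero elements of `R` embeds in a group. -/
def GroupEmbeddable (R : Type) [Ring R] : Prop :=
  ∃ (G : Type) (_ : Group G) (f : {r : R // r ≠ 0} → G), Function.Injective f ∧
    ∀ a b c : {r : R // r ≠ 0}, c.1 = a.1 * b.1 → f c = f a * f b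

/-- `R` is invertible: it embeds as a (not necessarily unital) subring in a ring `S` with identity in which
every nonzero element of `R` has a two-sided inverse. -/
def Invertible (R : Type) [Ring R] : Prop :=
  ∃ (S : Type v) (_ : Ring S) (φ : R →ₙ+* S), Function.Injective φ ∧ ∀ r : R, r ≠ 0 → IsUnit (φ r)

/-- In every characteristic `p` (zero or a prime) there is a ring without zero divisors, with group-embeddable
semigroup of nonzero elements, which is not invertible; and it can be taken to be an algebra over any given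
field. -/
theorem result :
    (∀ p : ℕ, (p = 0 ∨ p.Prime) → ∃ (R : Type) (_ : Ring R), Nontrivial R ∧ NoZeroDivisors R ∧ CharP R p ∧
      GroupEmbeddable R ∧ ¬ Invertible.{v} R) ∧
    (∀ (k : Type) [Field k], ∃ (R : Type) (_ : Ring R) (_ : Algebra k R), Nontrivial R ∧ NoZeroDivisors R ∧
      GroupEmbeddable R ∧ ¬ Invertible.{v} R) := by
  have main : ∀ (k : Type) [Field k], ∃ (R : Type) (_ : Ring R) (_ : Algebra k R), Nontrivial R ∧
      NoZeroDivisors R ∧ GroupEmbeddable R ∧ ¬ Invertible.{v} R := by
    intro k _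
    obtain ⟨R, iR, iA, hn, hz, hg, hi⟩ := K1H43.NI.exists_ring.{v} k
    refine ⟨R, iR, iA, hn, hz, hg, ?_⟩
    rintro ⟨S, iS, φ, hφ, hu⟩
    obtain ⟨r, hr, hr2⟩ := hi S φ hφ
    exact hr2 (hu r hr)
  refine ⟨fun p hp => ?_, main⟩
  rcases hp with rfl | hp
  · obtain ⟨R, iR, iA, hn, hz, hg, hi⟩ := main ℚ
    exact ⟨R, iR, hn, hz, charP_of_injective_algebraMap (algebraMap ℚ R).injective 0, hg, hi⟩
  · have : Fact p.Prime := ⟨hp⟩
    obtain ⟨R, iR, iA, hn, hz, hg, hi⟩ := main (ZMod p)
    exact ⟨R, iR, hn, hz, charP_of_injective_algebraMap (algebraMap (ZMod p) R).injective p, hg, hi⟩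

end Pool.Agent.Results.MP_17d087_al.EveryCharacteristic
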